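import Pool.Agent.Helper19.NF.Head
import Pool.Agent.Helper98.NF.PushHead
import Pool.Agent.Helper96.NF.Push
import Pool.Agent.Helper70.NF.Up

/-!
# Programs which leave a vanishing part of the input unread

The input is a table with one cell for every element of the finite abelian group `B`; the cell `b` contains the word
`I b : Bool × ZMod m → B`. The result `out x0 I` is the letter `(0, 0)` of the row `n` of the cellular automaton with this
table as its rule (see `Model.lean`). `Prog` are the deterministic branching programs (with several initial states),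
`PProg` those with a pushdown store.
-/

set_option autoImplicit false

namespace Pool.Agent.Helper19.NF.Candidate

open Pool.Agent.Helper19.NF

theorem result :
    (∀ (n m : ℕ) (_ : NeZero m) (B : Type) (_ : AddCommGroup B) (_ : Fintype B) (x0 : ZMod (n + 1) × ZMod m → B),
      (6 * m ^ 2 : ℝ) ≤ Real.sqrt n → 2 * Real.log n ≤ m → n ^ 5 ≤ Fintype.card B → Function.Injective x0 →
      -- (L) deterministic programs, amortised over `σ` initial states
      (∀ (σ S p T : ℕ) (Y : Type) (φ : B → Y) (P : Prog B (Bool × ZMod m → B) (Y × Fin σ) σ S),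
        (∀ y, Nat.card {b // φ b = y} ≤ p) → (T : ℝ) ≤ (1 - 2 * Real.log n / m) * Fintype.card B →
        (S : ℝ) ≤ σ * (n : ℝ) ^ ((n : ℝ) / 3) →
        (Nat.card {s : Fin σ × (B → Bool × ZMod m → B) // P.Outputs s.2 (P.start s.1) (φ (out x0 s.2), s.1) ∧
            Nat.card {b // P.Asks s.2 (P.start s.1) b} ≤ T} : ℝ) ≤
          (p / Fintype.card B + 1 / 50) * Nat.card (Fin σ × (B → Bool × ZMod m → B))) ∧
      -- (T) pushdown programs which run for at most `2 ^ w` steps
      (∀ (w p T : ℕ) (Y Q Γ : Type) (_ : Finite Q) (_ : Finite Γ) (φ : B → Y)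
          (P : PProg B (Bool × ZMod m → B) Y Q Γ),
        (∀ y, Nat.card {b // φ b = y} ≤ p) → (T : ℝ) ≤ (1 - 2 * Real.log n / m) * Fintype.card B →
        (16 * w ^ 2 : ℝ) ≤ n * Real.log n → Nat.card Q ≤ 2 ^ w → Nat.card Γ ≤ 2 ^ w →
        (Nat.card {I : B → Bool × ZMod m → B // (∃ j ≤ 2 ^ w, P.act (P.conf I j).1 = .out (φ (out x0 I))) ∧
            Nat.card {b // P.Asks I b} ≤ T} : ℝ) ≤
          (p / Fintype.card B + 1 / 50) * Nat.card (B → Bool × ZMod m → B)) ∧
      -- (P) a pushdown program which queries few cells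
      (∃ (Q Γ : Type) (_ : Finite Q) (_ : Finite Γ) (P : PProg B (Bool × ZMod m → B) B Q Γ),
        Nat.card Q ≤ (2 * Fintype.card B) ^ 4 ∧ Nat.card Γ ≤ (2 * Fintype.card B) ^ 4 ∧
        ∀ I, P.Outputs I (out x0 I) ∧ Nat.card {b // P.Asks I b} ≤ n * (n + 1) * m) ∧
      -- (U) the upper bound without pushdown store
      (∃ S, S ≤ (2 * Fintype.card B) ^ (4 * n) ∧ ∃ P : Prog B (Bool × ZMod m → B) B 1 S, ∀ I : B → Bool × ZMod m → B,
        P.Outputs I (P.start 0) (out x0 I) ∧ Nat.card {b // P.Asks I (P.start 0) b} ≤ n * (n + 1) * m) ∧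
      100 * (n * (n + 1) * m) ^ 2 ≤ Fintype.card B) ∧
    -- (G) the general form of (L)
    (∀ (n m σ S p T : ℕ) (_ : NeZero m) (B Y : Type) (_ : AddCommGroup B) (_ : Fintype B) (x : ℝ)
      (x0 : ZMod (n + 1) × ZMod m → B) (φ : B → Y) (P : Prog B (Bool × ZMod m → B) (Y × Fin σ) σ S),
      1 ≤ n → 0 < x → Function.Injective x0 → (∀ y, Nat.card {b // φ b = y} ≤ p) →
      (Nat.card {s : Fin σ × (B → Bool × ZMod m → B) // P.Outputs s.2 (P.start s.1) (φ (out x0 s.2), s.1) ∧
          Nat.card {b // P.Asks s.2 (P.start s.1) b} ≤ T} : ℝ) ≤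
        (σ * (((n * (n + 1) * m) ^ 2 + p) / Fintype.card B + n * m * ((T : ℝ) / Fintype.card B) ^ m) +
          S * (Real.exp x * (4 * m ^ 2 * ((T : ℝ) / Fintype.card B) / x +
            2 * m ^ 2 * n * ((T : ℝ) / Fintype.card B) ^ m) ^ (n - 1))) *
          Nat.card (B → Bool × ZMod m → B)) := by
  refine ⟨?_, fun n m σ S p T _ B Y _ _ x x0 φ P hn hx h0 hφ => main_bound hn x0 h0 P φ p T hφ x hx⟩
  intro n m _ B _ _ x0 hm2 hlog hk h0
  have hn := one_le_of hm2
  have h100 := col_le hm2 hlog hk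
  have hm : 1 ≤ m := Nat.one_le_iff_ne_zero.2 (NeZero.ne m)
  have h1 : 1 ≤ n * (n + 1) * m := Nat.one_le_iff_ne_zero.2 (by positivity)
  have hB : n * (n + 1) * m ≤ Fintype.card B := by nlinarith
  refine ⟨?_, ?_, ?_, ?_, h100⟩
  · intro σ S p T Y φ P hφ hT hS
    exact head hm2 hk x0 h0 P φ p T hφ hT hS
  · intro w p T Y Q Γ _ _ φ P hφ hT hw hQ hΓ
    exact Pool.Agent.Helper98.NF.push_head x0 h0 P φ p T w hφ hm2 hk hT hQ hΓ hw
  · exact Pool.Agent.Helper96.NF.pushdown_program hn x0 hB (by nlinarith)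
  · exact Pool.Agent.Helper70.NF.upper_ring hn x0 hB

end Pool.Agent.Helper19.NF.Candidate
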