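import Pool.Agent.Helper19.NF.Model
import Pool.Agent.Helper6.IP.Basic

/-!
# Programs which inspect nearly all cells: definitions for the proof

`cnt`, `tm` and their lemmas (`cnt_mono`, `cnt_lt`, `cnt_congr`, `tm_le`, `tm_eq`, `tm_lt`, `tm_eq_nat`, `tm_eq_top`)
are those of `Helper6.IP`.
-/

namespace Pool.Agent.Helper19.NF

open Pool.Agent.Helper6.IP (cnt tm)

variable {C W Z : Type} {σ S : ℕ}

/-- What is observed in a state: the queried cell, or the result. -/
def see (P : Prog C W Z σ S) (q : Fin S) : C ⊕ Z := (P.act q).elim (fun t => Sum.inl t.1) Sum.inr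

/-- What is observed in the `j`-th state of the run from `q`. -/
def obs (P : Prog C W Z σ S) (I : C → W) (q : Fin S) (j : ℕ) : C ⊕ Z := see P ((P.step I)^[j] q)

/-- The cell `b` is observed; when this happens first, exactly `ν` cells have been observed before, and `b'` is not one
of them (and not `b`). -/
def Hit (o : ℕ → C ⊕ Z) (b b' : C) (ν : ℕ) : Prop :=
  ∃ t, o t = Sum.inl b ∧ (∀ j < t, o j ≠ Sum.inl b) ∧ cnt o t = ν ∧ ∀ j ≤ t, o j ≠ Sum.inl b'

section
variable {U D B : Type} [Fintype D] [AddCommGroup B]

/-- The elements of the rows below `n` are different. -/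
def CF (g : D → Equiv.Perm U) (x0 : U → B) (n : ℕ) (I : B → D → B) : Prop :=
  ∀ i < n, ∀ j < n, ∀ u v, val g x0 I i u = val g x0 I j v → i = j ∧ u = v

end

/-! ## Paths in the ring; the level `l` is the row `n - l` -/

/-- The positions of the letters. -/
abbrev Pos (n m : ℕ) : Type := ZMod (n + 1) × ZMod m

/-- The directions. -/
abbrev Dir (m : ℕ) : Type := Bool × ZMod m

variable {n m : ℕ} [NeZero m] {B : Type} [AddCommGroup B]

/-- The time of the first query of the cell given by the position `w` of the level `l` (for `l = 0`, the result: `⊤`). -/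
noncomputable def tl (x0 : Pos n m → B) (I : B → Dir m → B) (o : ℕ → B ⊕ Z) (l : ℕ) (w : Pos n m) : ℕ∞ :=
  if l = 0 then ⊤ else tm o (Sum.inl (val (ring n m) x0 I (n - l) w))

/-- The position after `l` steps down from the result in the directions `c 0, c 1, …`. -/
def pos (n : ℕ) {m : ℕ} (c : ℕ → Dir m) : ℕ → Pos n m
  | 0 => (0, 0)
  | l + 1 => ring n m (c l) (pos n c l)

/-- The cells of the path `c` are observed in the order from below: for the levels `1, …, l`. -/
def Chain (x0 : Pos n m → B) (I : B → Dir m → B) (o : ℕ → B ⊕ Z) (c : ℕ → Dir m) (l : ℕ) : Prop :=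
  ∀ j < l, tl x0 I o (j + 1) (pos n c (j + 1)) < tl x0 I o j (pos n c j)

/-- The position `w` of the level `l` is reached by such a path. -/
def InR (x0 : Pos n m → B) (I : B → Dir m → B) (o : ℕ → B ⊕ Z) (l : ℕ) (w : Pos n m) : Prop :=
  ∃ c, Chain x0 I o c l ∧ pos n c l = w

/-! ## Labels -/

/-- The label of a level `j = 1, …, n - 1`: the direction from the level `j - 1` to the level `j`, and either (type 2) a
direction `d`, or (type 3) numbers `i`, `r`. -/
abbrev Label (n m : ℕ) : Type := Dir m × (Dir m ⊕ (Fin n × ZMod m))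

/-- The directions of a sequence of labels. -/
def dirs (L : Fin (n - 1) → Label n m) (j : ℕ) : Dir m := if h : j < n - 1 then (L ⟨j, h⟩).1 else (false, 0)

/-- The letters which belong to a label: one for type 2, all letters of a node for type 3. -/
abbrev Fib (ℓ : Label n m) : Type := {t : ZMod m // ℓ.2.isLeft → t = 0}

/-- The index set of the secrets of a sequence of labels. -/
abbrev Idx (L : Fin (n - 1) → Label n m) : Type := Σ a : Fin (n - 1), Fib (L a)

/-- The level of the node of the label with the number `a`: `a + 1` for type 2, `a + 1 + i` for type 3. -/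
def lev (L : Fin (n - 1) → Label n m) (a : Fin (n - 1)) : ℕ :=
  match (L a).2 with
  | .inl _ => a.val + 1
  | .inr y => a.val + 1 + y.1.val

/-- The other direction: a step to the side off the path at the level `a + 1`. -/
def oth (L : Fin (n - 1) → Label n m) (a : Fin (n - 1)) : Bool := !(dirs L (a.val + 1)).1

/-- The position of the letter `t` of the label number `a`. -/
def pst (L : Fin (n - 1) → Label n m) (a : Fin (n - 1)) (t : ZMod m) : Pos n m :=
  match (L a).2 with
  | .inl _ => pos n (dirs L) (a.val + 1)
  | .inr y => ((pos n (dirs L) (a.val + 1)).1 + (if oth L a then (y.1.val : ZMod (n + 1)) else 0), t)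

/-- The slot (direction) in which the position `pst L a t` is blocked. -/
def slt (L : Fin (n - 1) → Label n m) (a : Fin (n - 1)) (t : ZMod m) : Dir m :=
  match (L a).2 with
  | .inl d => d
  | .inr y => (oth L a, y.2 - t)

/-- The sequence of labels makes sense. -/
def Valid (L : Fin (n - 1) → Label n m) : Prop :=
  ∀ a, match (L a).2 with
    | .inl _ => True
    | .inr y => 1 ≤ y.1.val ∧ a.val + 1 + y.1.val < n

/-- The announced numbers fit: they are less than `T`, and decrease along the labels of type 2. -/
def Fits (L : Fin (n - 1) → Label n m) (T : ℕ) (num : Idx L → ℕ) : Prop :=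
  (∀ x, num x < T) ∧ ∀ x y : Idx L, (L x.1).2.isLeft → (L y.1).2.isLeft → x.1 < y.1 → num y < num x

/-- The instance `I` is of the type `L` with the numbers `num` for the observations `o`. -/
def Typ (x0 : Pos n m → B) (I : B → Dir m → B) (o : ℕ → B ⊕ Z) (L : Fin (n - 1) → Label n m) (num : Idx L → ℕ) :
    Prop :=
  ∀ x : Idx L, Hit o (val (ring n m) x0 I (n - lev L x.1) (pst L x.1 x.2.1))
    (val (ring n m) x0 I (n - lev L x.1 - 1) (ring n m (slt L x.1 x.2.1) (pst L x.1 x.2.1))) (num x)

end Pool.Agent.Helper19.NF
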