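import Pool.Agent.Helper19.NF.Defs

/-!
# Frame (only for the work, not for the graded result)
-/

set_option autoImplicit false

namespace Pool.Agent.Helper19.NF.Frame

open Pool.Agent.Helper6.IP (cnt tm)
open Pool.Agent.Helper19.NF

section general

variable {U D B Z : Type} [Fintype U] [Fintype D] [DecidableEq D] [AddCommGroup B] [Fintype B] {σ S : ℕ}

/-- F1: few instances have two equal elements in the rows below `n` (transport of `Helper60.NS.cf_count`). -/
theorem card_not_CF [Nonempty D] (g : D → Equiv.Perm U) (x0 : U → B) (h0 : Function.Injective x0) (n : ℕ) :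
    Nat.card {I : B → D → B // ¬ CF g x0 n I} * Fintype.card B ≤ (n * Fintype.card U) ^ 2 * Nat.card (B → D → B) := sorry

/-- F2: the secrets lemma. -/
theorem secrets {ι : Type} [Fintype ι] (g : D → Equiv.Perm U) (x0 : U → B) (n : ℕ) (P : Prog B (D → B) Z σ S)
    (q : Fin S) (nd : ι → ℕ × U) (hinj : Function.Injective nd) (hrow : ∀ a, 1 ≤ (nd a).1 ∧ (nd a).1 < n)
    (sl : ι → D) (num : ι → ℕ) :
    Nat.card {I : B → D → B // CF g x0 n I ∧ ∀ a, Hit (obs P I q) (val g x0 I (nd a).1 (nd a).2)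
      (val g x0 I ((nd a).1 - 1) (g (sl a) (nd a).2)) (num a)} * Fintype.card B ^ Fintype.card ι ≤
      Nat.card (B → D → B) := sorry

/-- F3: a cell used by the result is never queried. `w` is a node of the row `n`, `φ` the output function. -/
theorem root_bound (g : D → Equiv.Perm U) (x0 : U → B) (n : ℕ) (hn : 1 ≤ n) (P : Prog B (D → B) Z σ S) (q : Fin S)
    (w : U) (c : D) (φ : B → Z) (p : ℕ) (hφ : ∀ z, Nat.card {b // φ b = z} ≤ p) :
    Nat.card {I : B → D → B // CF g x0 n I ∧ P.Outputs I q (φ (val g x0 I n w)) ∧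
      ¬ P.Asks I q (val g x0 I (n - 1) (g c w))} * Fintype.card B ≤ p * Nat.card (B → D → B) := sorry

/-- F3': a cell used by the result is never queried. -/
theorem root_bound_all (g : D → Equiv.Perm U) (x0 : U → B) (n : ℕ) (hn : 1 ≤ n) (P : Prog B (D → B) Z σ S)
    (q : Fin S) (w : U) (φ : B → Z) (p : ℕ) (hφ : ∀ z, Nat.card {b // φ b = z} ≤ p) :
    Nat.card {I : B → D → B // CF g x0 n I ∧ P.Outputs I q (φ (val g x0 I n w)) ∧
      ∃ c, ¬ P.Asks I q (val g x0 I (n - 1) (g c w))} * Fintype.card B ≤ p * Nat.card (B → D → B) := sorry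

end general

section ring

variable {n m : ℕ} [NeZero m] {B Z : Type} [AddCommGroup B] {σ S : ℕ}

/-- F4: the last time with an open path. -/
theorem exists_close (hn : 1 ≤ n) (x0 : Pos n m → B) (I : B → Dir m → B) (o : ℕ → B ⊕ Z) (L : ℕ)
    (hL : ∀ j, L ≤ j → ∃ y, o j = Sum.inr y) (h0 : ∃ w, InR x0 I o n w) :
    ∃ τ, (∀ w, ¬ InR x0 I (fun j => o (j + τ)) n w) ∧ ∃ c, Chain x0 I (fun j => o (j + τ)) c (n - 1) := sorry

/-- F5: if no node `(l, 0)` is complete before a letter of its neighbour below, and the node `0` of the level `1` is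
complete, then a path is open. -/
theorem open_start (hn : 1 ≤ n) (x0 : Pos n m → B) (I : B → Dir m → B) (hI : CF (ring n m) x0 n I) (o : ℕ → B ⊕ Z)
    (h1 : ∀ t, tl x0 I o 1 (0, t) < ⊤)
    (h2 : ∀ l, 1 ≤ l → l < n → ∀ t', ¬ ∀ t, tl x0 I o l (0, t) < tl x0 I o (l + 1) (0, t')) :
    ∃ w, InR x0 I o n w := sorry

/-- F6: the labels of a closing time. -/
theorem exists_label (hn : 1 ≤ n) (x0 : Pos n m → B) (I : B → Dir m → B) (hI : CF (ring n m) x0 n I)
    (o : ℕ → B ⊕ Z) (T : ℕ) (hT : ∀ t, (∃ b, o t = Sum.inl b ∧ ∀ j < t, o j ≠ Sum.inl b) → cnt o t < T)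
    (hR : ∀ w, ¬ InR x0 I o n w) (c : ℕ → Dir m) (hc : Chain x0 I o c (n - 1)) :
    ∃ (L : Fin (n - 1) → Label n m) (num : Idx L → ℕ), Valid L ∧ Fits L T num ∧ Typ x0 I o L num := sorry

/-- F7: the nodes of a sequence of labels are different. -/
theorem nd_inj (L : Fin (n - 1) → Label n m) (hL : Valid L) :
    Function.Injective (fun x : Idx L => (n - lev L x.1, pst L x.1 x.2.1)) := sorry

/-- F7b: the rows are between `1` and `n - 1`. -/
theorem nd_row (L : Fin (n - 1) → Label n m) (hL : Valid L) (a : Fin (n - 1)) : 1 ≤ n - lev L a ∧ n - lev L a < n := sorry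

/-- The weight of a label: `1 / x` times `K` for type 2, `K ^ m` for type 3. -/
noncomputable def wt (K x : ℝ) (ℓ : Label n m) : ℝ := if ℓ.2.isLeft then K / x else K ^ m

/-- F8: the number of possible announcements, divided by `k` to the number of the secrets. -/
theorem card_fits (L : Fin (n - 1) → Label n m) (T k : ℕ) (hk : 0 < k) (x : ℝ) (hx : 0 < x) :
    (Nat.card {num : Idx L → ℕ // Fits L T num} : ℝ) ≤
      Real.exp x * (∏ a, wt ((T : ℝ) / k) x (L a)) * (k : ℝ) ^ Fintype.card (Idx L) := sorry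

/-- F9: the sum over all labels. -/
theorem sum_wt (K x : ℝ) : ∑ L : Fin (n - 1) → Label n m, ∏ a, wt K x (L a) =
    (4 * m ^ 2 * K / x + 2 * m ^ 2 * n * K ^ m) ^ (n - 1) := sorry

/-- F10: the closing instances of one state (from F2, F7, F8, F9; `x0`, `q` fixed). -/
theorem close_bound [Fintype B] (x0 : Pos n m → B) (P : Prog B (Dir m → B) Z σ S) (q : Fin S) (T : ℕ) (x : ℝ)
    (hx : 0 < x) :
    (Nat.card {I : B → Dir m → B // CF (ring n m) x0 n I ∧ ∃ (L : Fin (n - 1) → Label n m) (num : Idx L → ℕ),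
      Valid L ∧ Fits L T num ∧ Typ x0 I (obs P I q) L num} : ℝ) ≤
      Real.exp x * (4 * m ^ 2 * ((T : ℝ) / Fintype.card B) / x + 2 * m ^ 2 * n * ((T : ℝ) / Fintype.card B) ^ m) ^ (n - 1)
        * Nat.card (B → Dir m → B) := sorry

/-- F11: the whole bound. The pairs `(i, I)` such that the computation from the initial state number `i` on `I` ends
with the right output and with the index `i` and queries at most `T` cells. -/
theorem main_bound {Y : Type} [Fintype B] (hn : 1 ≤ n) (x0 : Pos n m → B) (h0 : Function.Injective x0)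
    (P : Prog B (Dir m → B) (Y × Fin σ) σ S) (φ : B → Y) (p T : ℕ) (hφ : ∀ y, Nat.card {b // φ b = y} ≤ p) (x : ℝ)
    (hx : 0 < x) :
    (Nat.card {s : Fin σ × (B → Dir m → B) // P.Outputs s.2 (P.start s.1) (φ (out x0 s.2), s.1) ∧
        Nat.card {b // P.Asks s.2 (P.start s.1) b} ≤ T} : ℝ) ≤
      (σ * (((n * (n + 1) * m) ^ 2 + m * p) / Fintype.card B + n * m * ((T : ℝ) / Fintype.card B) ^ m) +
        S * (Real.exp x * (4 * m ^ 2 * ((T : ℝ) / Fintype.card B) / x +
          2 * m ^ 2 * n * ((T : ℝ) / Fintype.card B) ^ m) ^ (n - 1))) * Nat.card (B → Dir m → B) := sorry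

/-- F12: numbers. The bound of `main_bound` (with `x = n`) for `K = T / k ≤ 1 - 3 (log n) / m` and `6 m ^ 2 ≤ n ^ (1/2)`.
Wish: something like this; the exact form is to be agreed. -/
theorem numbers (n m S : ℕ) (K : ℝ) (hn : 1 ≤ n) (hm : 1 ≤ m) (hK0 : 0 ≤ K) (hK : K ≤ 1 - 3 * Real.log n / m)
    (hm2 : (6 * m ^ 2 : ℝ) ≤ Real.sqrt n) (hS : (S : ℝ) ≤ (n : ℝ) ^ ((n : ℝ) / 4)) (h0 : 10 ^ 6 ≤ n) :
    n * m * K ^ m + S * (Real.exp n * (4 * m ^ 2 * K / n + 2 * m ^ 2 * n * K ^ m) ^ (n - 1)) ≤ 1 / 200 := sorry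

/-- F13: the pushdown program (as `Helper74.NS.Frame.pushdown_program`, but the query of the cell `b` gives the whole
word `I b`). Exponents up to 7 are fine. -/
theorem pushdown_program [Fintype B] (hn : 1 ≤ n) (x0 : Pos n m → B) (hB : n * (n + 1) * m ≤ Fintype.card B)
    (hB2 : 2 ≤ Fintype.card B) :
    ∃ (Q Γ : Type) (_ : Finite Q) (_ : Finite Γ) (P : PProg B (Dir m → B) B Q Γ),
      Nat.card Q ≤ (2 * Fintype.card B) ^ 4 ∧ Nat.card Γ ≤ (2 * Fintype.card B) ^ 4 ∧
      ∀ I, P.Outputs I (out x0 I) ∧ Nat.card {b // P.Asks I b} ≤ n * (n + 1) * m := sorry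

end ring

end Pool.Agent.Helper19.NF.Frame
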