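import Pool.Agent.Helper19.NF.Main
import Pool.Agent.Helper4.NF.Num

/-!
# The bound in numbers
-/

set_option autoImplicit false

namespace Pool.Agent.Helper19.NF

variable {n m : ℕ} [NeZero m] {B : Type} [AddCommGroup B] {σ S : ℕ}

theorem one_le_of {m n : ℕ} [NeZero m] (hm2 : (6 * m ^ 2 : ℝ) ≤ Real.sqrt n) : 1 ≤ n := by
  rcases Nat.eq_zero_or_pos n with h | h
  · subst h
    have h1 : 0 < m := Nat.pos_of_ne_zero (NeZero.ne m)
    have h2 : (0 : ℝ) < m := by exact_mod_cast h1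
    have h3 : (0 : ℝ) < 6 * m ^ 2 := by positivity
    simp at hm2
    nlinarith
  · exact h

/-- The collision term. -/
theorem col_le (hm2 : (6 * m ^ 2 : ℝ) ≤ Real.sqrt n) (hlog : 2 * Real.log n ≤ m) {k : ℕ} (hk : n ^ 5 ≤ k) :
    100 * (n * (n + 1) * m) ^ 2 ≤ k := by
  have hm : 1 ≤ m := Nat.one_le_iff_ne_zero.2 (NeZero.ne m)
  have hmR : (0 : ℝ) < m := by exact_mod_cast hm
  have hn := one_le_of hm2
  have h1 := Pool.Agent.Helper4.NF.numbers_k n m 0 k 0 hm le_rfl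
    (by rw [sub_nonneg, div_le_one hmR]; exact hlog) hm2 hk (by simp)
  have hk0 : (0 : ℝ) < k := by
    have : 0 < n ^ 5 := by positivity
    exact_mod_cast lt_of_lt_of_le this hk
  rw [div_le_iff₀ hk0] at h1
  have h2 : (100 : ℝ) * (n * (n + 1) * m) ^ 2 ≤ k := by
    simp only [Nat.cast_zero, mul_zero, add_zero] at h1
    linarith
  exact_mod_cast h2

/-- The bound in numbers. -/
theorem head {Y : Type} [Fintype B] (hm2 : (6 * m ^ 2 : ℝ) ≤ Real.sqrt n) (hk : n ^ 5 ≤ Fintype.card B)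
    (x0 : Pos n m → B) (h0 : Function.Injective x0)
    (P : Prog B (Dir m → B) (Y × Fin σ) σ S) (φ : B → Y) (p T : ℕ) (hφ : ∀ y, Nat.card {b // φ b = y} ≤ p)
    (hT : (T : ℝ) ≤ (1 - 2 * Real.log n / m) * Fintype.card B) (hS : (S : ℝ) ≤ σ * (n : ℝ) ^ ((n : ℝ) / 3)) :
    (Nat.card {s : Fin σ × (B → Dir m → B) // P.Outputs s.2 (P.start s.1) (φ (out x0 s.2), s.1) ∧
        Nat.card {b // P.Asks s.2 (P.start s.1) b} ≤ T} : ℝ) ≤
      (p / Fintype.card B + 1 / 50) * Nat.card (Fin σ × (B → Dir m → B)) := by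
  classical
  have hn := one_le_of hm2
  have hnR : (0 : ℝ) < n := by exact_mod_cast hn
  have hm : 1 ≤ m := Nat.one_le_iff_ne_zero.2 (NeZero.ne m)
  have hk0 : 0 < Fintype.card B := Fintype.card_pos_iff.2 ⟨0⟩
  have hkR : (0 : ℝ) < Fintype.card B := by exact_mod_cast hk0
  have hK0 : (0 : ℝ) ≤ (T : ℝ) / Fintype.card B := by positivity
  have hK : (T : ℝ) / Fintype.card B ≤ 1 - 2 * Real.log n / m := by
    rw [div_le_iff₀ hkR]
    exact hT
  have h1 := main_bound hn x0 h0 P φ p T hφ n hnR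
  have h2 := Pool.Agent.Helper4.NF.numbers_real n m ((n : ℝ) ^ ((n : ℝ) / 3)) _ (by positivity) hm hK0 hK hm2 le_rfl
  have h3 := Pool.Agent.Helper4.NF.numbers_k n m 0 (Fintype.card B) _ hm hK0 hK hm2 hk (by simp)
  simp only [Nat.cast_zero, mul_zero, add_zero] at h3
  refine h1.trans ?_
  rw [Nat.card_prod, Nat.card_eq_fintype_card (α := Fin σ), Fintype.card_fin]
  push_cast
  have hN : (0 : ℝ) ≤ Nat.card (B → Dir m → B) := Nat.cast_nonneg _
  refine le_trans ?_ (mul_assoc _ (σ : ℝ) (Nat.card (B → Dir m → B) : ℝ)).le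
  refine mul_le_mul_of_nonneg_right ?_ hN
  set W : ℝ := Real.exp n * (4 * m ^ 2 * ((T : ℝ) / Fintype.card B) / n +
    2 * m ^ 2 * n * ((T : ℝ) / Fintype.card B) ^ m) ^ (n - 1) with hW
  have hW0 : 0 ≤ W := by positivity
  have h4 : (S : ℝ) * W ≤ σ * ((n : ℝ) ^ ((n : ℝ) / 3) * W) := by
    refine le_trans ?_ (mul_assoc (σ : ℝ) ((n : ℝ) ^ ((n : ℝ) / 3)) W).le
    exact mul_le_mul_of_nonneg_right hS hW0
  have hσ : (0 : ℝ) ≤ σ := Nat.cast_nonneg _
  have h5 : ((((n : ℝ) * (n + 1) * m) ^ 2 + p) / Fintype.card B : ℝ) =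
      ((n : ℝ) * (n + 1) * m) ^ 2 / Fintype.card B + p / Fintype.card B := add_div _ _ _
  rw [h5]
  calc (σ : ℝ) * (((n : ℝ) * (n + 1) * m) ^ 2 / Fintype.card B + p / Fintype.card B +
        n * m * ((T : ℝ) / Fintype.card B) ^ m) + S * W
      ≤ σ * (((n : ℝ) * (n + 1) * m) ^ 2 / Fintype.card B + p / Fintype.card B +
        n * m * ((T : ℝ) / Fintype.card B) ^ m) + σ * ((n : ℝ) ^ ((n : ℝ) / 3) * W) := by linarith
    _ = σ * (((n : ℝ) * (n + 1) * m) ^ 2 / Fintype.card B + p / Fintype.card B +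
        (n * m * ((T : ℝ) / Fintype.card B) ^ m + (n : ℝ) ^ ((n : ℝ) / 3) * W)) := by ring
    _ ≤ σ * (1 / 100 + p / Fintype.card B + 1 / 200) := by gcongr
    _ ≤ (p / Fintype.card B + 1 / 50) * σ := by nlinarith

end Pool.Agent.Helper19.NF
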