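import Mathlib

/-!
# Programs which inspect nearly all cells: the model
-/

namespace Pool.Agent.Helper19.NF

/-- A deterministic branching program with `S` states and `σ` initial states for input cells `C` with contents in `W`:
each state either queries a cell (and moves according to its content) or is final with a result in `Z`. -/
structure Prog (C W Z : Type) (σ S : ℕ) where
  start : Fin σ → Fin S
  act : Fin S → (C × (W → Fin S)) ⊕ Z

variable {C W Z : Type} {σ S : ℕ}

/-- One step of the program on the input `I` (final states do not move). -/
def Prog.step (P : Prog C W Z σ S) (I : C → W) (q : Fin S) : Fin S :=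
  (P.act q).elim (fun t => t.2 (I t.1)) (fun _ => q)

/-- The computation from the state `q` on the input `I` reaches a final state with result `z`. -/
def Prog.Outputs (P : Prog C W Z σ S) (I : C → W) (q : Fin S) (z : Z) : Prop :=
  ∃ j : ℕ, P.act ((P.step I)^[j] q) = Sum.inr z

/-- In the computation from the state `q` on the input `I` the cell `c` is queried. -/
def Prog.Asks (P : Prog C W Z σ S) (I : C → W) (q : Fin S) (c : C) : Prop :=
  ∃ (j : ℕ) (next : W → Fin S), P.act ((P.step I)^[j] q) = Sum.inl (c, next)

/-- The instructions of a program with a pushdown store: query a cell, push a symbol, pop a symbol, or give the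
result. -/
inductive PAct (C W Z Q Γ : Type)
  | ask (c : C) (next : W → Q) : PAct C W Z Q Γ
  | push (g : Γ) (next : Q) : PAct C W Z Q Γ
  | pop (next : Γ → Q) : PAct C W Z Q Γ
  | out (z : Z) : PAct C W Z Q Γ

/-- A deterministic branching program with a pushdown store: states `Q`, stack symbols `Γ`. -/
structure PProg (C W Z Q Γ : Type) where
  start : Q
  act : Q → PAct C W Z Q Γ

variable {Q Γ : Type}

/-- One step on the input `I` (to pop from the empty stack is impossible: the program stays; final states do not
move). -/
def PProg.step (P : PProg C W Z Q Γ) (I : C → W) (c : Q × List Γ) : Q × List Γ :=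
  match P.act c.1 with
  | .ask v next => (next (I v), c.2)
  | .push g s => (s, g :: c.2)
  | .pop next => match c.2 with
    | [] => c
    | g :: st => (next g, st)
  | .out _ => c

/-- The configuration after `j` steps. -/
def PProg.conf (P : PProg C W Z Q Γ) (I : C → W) (j : ℕ) : Q × List Γ := (P.step I)^[j] (P.start, [])

/-- The result on the input `I` is `z`. -/
def PProg.Outputs (P : PProg C W Z Q Γ) (I : C → W) (z : Z) : Prop := ∃ j, P.act (P.conf I j).1 = .out z

/-- On the input `I` the cell `c` is queried. -/
def PProg.Asks (P : PProg C W Z Q Γ) (I : C → W) (c : C) : Prop := ∃ j next, P.act (P.conf I j).1 = .ask c next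

variable {U D B : Type} [Fintype D] [AddCommGroup B]

/-- The rows: row `0` is `x0`, and the element `w` of the row `i + 1` is the sum, over all `c`, of the entries number `c`
of the cells given by the elements `g c w` of the row `i`. The input `I` is a table with one cell for every `b : B`; the
cell `b` contains the word `I b` with the entries `I b c`. -/
def val (g : D → Equiv.Perm U) (x0 : U → B) (I : B → D → B) : ℕ → U → B
  | 0, w => x0 w
  | i + 1, w => ∑ c, I (val g x0 I i (g c w)) c

/-- The positions in a row are the pairs `(u, t)`: the letter number `t` of the node `u`, where `u` is an integer modulo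
`n + 1` and `t` an integer modulo `m`. `ring n m (s, r) (u, t) = (u + s, t + r)`, `s = 0, 1`. -/
def ring (n m : ℕ) (c : Bool × ZMod m) : Equiv.Perm (ZMod (n + 1) × ZMod m) :=
  Equiv.addRight ((if c.1 then 1 else 0 : ZMod (n + 1)), c.2)

/-- The result: the letter `0` of the node `0` of the row `n`. -/
def out {n m : ℕ} [NeZero m] (x0 : ZMod (n + 1) × ZMod m → B) (I : B → Bool × ZMod m → B) : B :=
  val (ring n m) x0 I n (0, 0)

end Pool.Agent.Helper19.NF
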