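import Pool.Agent.Helper19.NF.Defs

/-!
# Counting: unions over numbers, pairs, times
-/

set_option autoImplicit false

namespace Pool.Agent.Helper19.NF

open Pool.Agent.Helper6.IP

/-- A union over a finite set of codes. -/
theorem card_exists_le {α κ : Type} [Finite α] [Finite κ] (Q : κ → α → Prop) (c X : ℕ)
    (h : ∀ a, Nat.card {x : α // Q a x} * c ≤ X) : Nat.card {x : α // ∃ a, Q a x} * c ≤ Nat.card κ * X := by
  classical
  have : Fintype κ := Fintype.ofFinite κ
  have h1 : {x : α | ∃ a, Q a x} = ⋃ a, {x : α | Q a x} := by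
    ext x
    simp
  have h2 : Nat.card {x : α // ∃ a, Q a x} ≤ ∑ a, Nat.card {x : α // Q a x} := by
    have h3 := Set.ncard_iUnion_le_of_fintype (fun a => {x : α | Q a x})
    rw [← h1] at h3
    exact h3
  calc Nat.card {x : α // ∃ a, Q a x} * c ≤ (∑ a, Nat.card {x : α // Q a x}) * c := Nat.mul_le_mul_right _ h2
    _ = ∑ a, Nat.card {x : α // Q a x} * c := Finset.sum_mul _ _ _
    _ ≤ ∑ _a : κ, X := Finset.sum_le_sum fun a _ => h a
    _ = Nat.card κ * X := by rw [Finset.sum_const, Finset.card_univ, smul_eq_mul, Nat.card_eq_fintype_card]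

/-- Pairs with a finite first part. -/
theorem card_pairs_le {α κ : Type} [Finite α] [Finite κ] (Q : κ × α → Prop) (c X : ℕ)
    (h : ∀ a, Nat.card {x : α // Q (a, x)} * c ≤ X) : Nat.card {s : κ × α // Q s} * c ≤ Nat.card κ * X := by
  classical
  have : Fintype κ := Fintype.ofFinite κ
  have e : {s : κ × α // Q s} ≃ Σ a : κ, {x : α // Q (a, x)} :=
    { toFun := fun s => ⟨s.1.1, s.1.2, s.2⟩
      invFun := fun s => ⟨(s.1, s.2.1), s.2.2⟩
      left_inv := fun _ => rfl
      right_inv := fun _ => rfl }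
  rw [Nat.card_congr e, Nat.card_sigma]
  calc (∑ a, Nat.card {x : α // Q (a, x)}) * c = ∑ a, Nat.card {x : α // Q (a, x)} * c := Finset.sum_mul _ _ _
    _ ≤ ∑ _a : κ, X := Finset.sum_le_sum fun a _ => h a
    _ = Nat.card κ * X := by rw [Finset.sum_const, Finset.card_univ, smul_eq_mul, Nat.card_eq_fintype_card]

variable {C W Z : Type} {σ S : ℕ}

/-- The observations of a later state. -/
theorem obs_add (P : Prog C W Z σ S) (I : C → W) (q : Fin S) (τ j : ℕ) :
    obs P I ((P.step I)^[τ] q) j = obs P I q (j + τ) := by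
  unfold obs
  rw [Function.iterate_add_apply]

theorem see_inl {P : Prog C W Z σ S} {q : Fin S} {b : C} (h : see P q = Sum.inl b) :
    ∃ next, P.act q = Sum.inl (b, next) := by
  unfold see at h
  rcases hact : P.act q with a | a
  · rw [hact] at h
    simp at h
    exact ⟨a.2, by rw [← h]⟩
  · rw [hact] at h
    simp at h

theorem see_inr {P : Prog C W Z σ S} {q : Fin S} {z : Z} : see P q = Sum.inr z ↔ P.act q = Sum.inr z := by
  unfold see
  rcases hact : P.act q with a | a <;> simp

theorem see_inl_of {P : Prog C W Z σ S} {q : Fin S} {b : C} {next : W → Fin S} (h : P.act q = Sum.inl (b, next)) :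
    see P q = Sum.inl b := by
  unfold see
  rw [h]
  rfl

theorem asks_iff (P : Prog C W Z σ S) (I : C → W) (q : Fin S) (b : C) :
    P.Asks I q b ↔ ∃ j, obs P I q j = Sum.inl b :=
  ⟨fun ⟨j, _, h⟩ => ⟨j, see_inl_of h⟩, fun ⟨j, h⟩ => ⟨j, see_inl h⟩⟩

theorem outputs_iff (P : Prog C W Z σ S) (I : C → W) (q : Fin S) (z : Z) :
    P.Outputs I q z ↔ ∃ j, obs P I q j = Sum.inr z :=
  exists_congr fun _ => see_inr.symm

/-- Final states do not move. -/
theorem step_of_final {P : Prog C W Z σ S} {I : C → W} {q : Fin S} {z : Z} (h : P.act q = Sum.inr z) :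
    P.step I q = q := by
  unfold Prog.step
  rw [h]
  rfl

theorem iterate_final {P : Prog C W Z σ S} {I : C → W} {q : Fin S} {z : Z} (h : P.act q = Sum.inr z) (j : ℕ) :
    (P.step I)^[j] q = q := by
  induction j with
  | zero => rfl
  | succ j ih => rw [Function.iterate_succ_apply', ih, step_of_final h]

/-- After the result has been reached it stays. -/
theorem obs_final {P : Prog C W Z σ S} {I : C → W} {q : Fin S} {z : Z} {L : ℕ} (h : obs P I q L = Sum.inr z) {j : ℕ}
    (hj : L ≤ j) : obs P I q j = Sum.inr z := by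
  obtain ⟨i, rfl⟩ := Nat.exists_eq_add_of_le hj
  have h1 := obs_add P I q L i
  rw [Nat.add_comm L i, ← h1]
  have h2 : P.act ((P.step I)^[L] q) = Sum.inr z := see_inr.1 h
  unfold obs
  rw [iterate_final h2]
  exact h

theorem outputs_later {P : Prog C W Z σ S} {I : C → W} {q : Fin S} {z : Z} (h : P.Outputs I q z) (τ : ℕ) :
    P.Outputs I ((P.step I)^[τ] q) z := by
  rw [outputs_iff] at h ⊢
  obtain ⟨L, hL⟩ := h
  exact ⟨L, by rw [obs_add]; exact obs_final hL (by omega)⟩

theorem outputs_unique {P : Prog C W Z σ S} {I : C → W} {q : Fin S} {z z' : Z} (h : P.Outputs I q z)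
    (h' : P.Outputs I q z') : z = z' := by
  rw [outputs_iff] at h h'
  obtain ⟨L, hL⟩ := h
  obtain ⟨L', hL'⟩ := h'
  have h1 := obs_final hL (le_max_left L L')
  have h2 := obs_final hL' (le_max_right L L')
  exact Sum.inr_injective (h1.symm.trans h2)

/-- The number of the cells observed before a new cell is less than the number of all cells. -/
theorem cnt_lt_card [Finite C] {P : Prog C W Z σ S} {I : C → W} {q : Fin S} {T : ℕ}
    (hT : Nat.card {b // P.Asks I q b} ≤ T) (τ : ℕ) {t : ℕ} {b : C}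
    (hb : obs P I q (t + τ) = Sum.inl b) (hb' : ∀ j < t, obs P I q (j + τ) ≠ Sum.inl b) :
    cnt (fun j => obs P I q (j + τ)) t < T := by
  have h1 : {c : C | ∃ j < t, obs P I q (j + τ) = Sum.inl c}.ncard < {c : C | P.Asks I q c}.ncard := by
    refine Set.ncard_lt_ncard ⟨fun c hc => ?_, fun hsub => ?_⟩ (Set.toFinite _)
    · obtain ⟨j, -, hj⟩ := hc
      exact (asks_iff P I q c).2 ⟨_, hj⟩
    · obtain ⟨j, hj, hj'⟩ := hsub ((asks_iff P I q b).2 ⟨_, hb⟩)
      exact hb' j hj hj'
  exact h1.trans_le hT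

/-- From the order of the first observations to `Hit`. -/
theorem hit_of_lt {o : ℕ → C ⊕ Z} {b b' : C} {T : ℕ}
    (hT : ∀ t b, o t = Sum.inl b → (∀ j < t, o j ≠ Sum.inl b) → cnt o t < T)
    (h : tm o (Sum.inl b) < tm o (Sum.inl b')) : ∃ ν < T, Hit o b b' ν := by
  classical
  have h1 : ∃ t, o t = Sum.inl b := by
    by_contra hc
    push Not at hc
    rw [tm_eq_top hc] at h
    exact absurd h (by simp)
  have h2 := Nat.find_spec h1
  have h3 : ∀ j < Nat.find h1, o j ≠ Sum.inl b := fun j hj => Nat.find_min h1 hj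
  refine ⟨cnt o (Nat.find h1), hT _ _ h2 h3, Nat.find h1, h2, h3, rfl, fun j hj hj' => ?_⟩
  rw [tm_eq h2 h3] at h
  have h4 := tm_le hj'
  have h5 : (j : ℕ∞) ≤ (Nat.find h1 : ℕ) := by exact_mod_cast hj
  exact absurd (h.trans_le (h4.trans h5)) (lt_irrefl _)

end Pool.Agent.Helper19.NF
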